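import Mathlib

namespace Pool.Agent.H.MP_1fc4c0_an
open Finset

lemma cnt {p : ℕ} (hp : 0 < p) (a y : ℤ) (L : ℕ) :
    (((Ico a (a + L)).filter fun x => (p : ℤ) ∣ x - y).card : ℝ) ≤ L / p + 1 := by
  have h := Int.Ico_filter_modEq_card a (a + L) (r := p) (by exact_mod_cast hp) y
  simp only [Int.modEq_iff_dvd, dvd_sub_comm (a := (p : ℤ)) (b := y)] at h
  have h1 := Int.ceil_lt_add_one (((a + L : ℤ) - y : ℚ) / (p : ℤ))
  have h2 := Int.le_ceil (((a : ℤ) - y : ℚ) / (p : ℤ))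
  have h3 : ((((Ico a (a + L)).filter fun x => (p : ℤ) ∣ x - y).card : ℤ) : ℚ) ≤ L / p + 1 := by
    rw [h]
    push_cast at h1 h2 ⊢
    refine max_le ?_ (by positivity)
    have : ((a : ℚ) + L - y) / p = (a - y) / p + L / p := by ring
    linarith
  have : ((((Ico a (a + L)).filter fun x => (p : ℤ) ∣ x - y).card : ℚ) : ℝ) ≤ ((L / p + 1 : ℚ) : ℝ) := by
    exact_mod_cast h3
  simpa using this

lemma one_res {p h : ℕ} (hp : p.Prime) (hh : ¬ p ∣ h) (x : ℤ) :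
    ∑ t ∈ range p, (if (p : ℤ) ∣ x - t * h then (1 : ℝ) else 0) = 1 := by
  haveI := Fact.mk hp
  have h0 : (h : ZMod p) ≠ 0 := by rwa [Ne, ZMod.natCast_eq_zero_iff]
  have : ∀ t ∈ range p, ((p : ℤ) ∣ x - t * h) ↔ t = ((x : ZMod p) / h).val := by
    intro t ht
    rw [← ZMod.intCast_zmod_eq_zero_iff_dvd]
    push_cast
    rw [sub_eq_zero, eq_comm, ← eq_div_iff h0]
    constructor
    · intro e; rw [← e, ZMod.val_natCast, Nat.mod_eq_of_lt (mem_range.1 ht)]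
    · intro e; rw [e, ZMod.natCast_zmod_val]
  rw [sum_congr rfl fun t ht => if_congr (this t ht) rfl rfl, sum_ite_eq', if_pos]
  exact mem_range.2 (ZMod.val_lt _)

structure Blk (M0 ρ N : ℕ) (θ : ℝ) (M R : ℕ) (ν : ℤ → ℝ) (Φ : ℝ → ℤ → ℝ) (Gen : ℤ → Prop) : Prop where
  Mpos : 0 < M
  nn : ∀ y, 0 ≤ ν y
  sym : ∀ y, ν (-y) = ν y
  supp : ∀ y, ν y ≠ 0 → y ∈ Icc (-(R : ℤ)) R ∧ (M0 : ℤ) ∣ y
  one : ∑ y ∈ Icc (-(R : ℤ)) R, ν y = 1
  per : ∀ s x y, (M : ℤ) ∣ y → Φ s (x - y) = Φ s x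
  bd : ∀ s, 0 ≤ s → s ≤ 1 → ∀ x, 0 ≤ Φ s x ∧ Φ s x ≤ 1
  step : ∀ s x, ∑ y ∈ Icc (-(R : ℤ)) R, ν y * Φ s (x - y) = Φ (θ * s) x
  top : ∀ x, Φ 1 x ≠ 0 → (M : ℤ) ∣ x
  gen : ∀ x, Gen x → ∀ y : ℤ, |y| ≤ ρ → ∀ s, Φ s (x - y) = (1 - s) ^ N / M
  many : ∃ L0, ∀ L : ℕ, L0 ≤ L → ∃ E ⊆ Ico (0 : ℤ) L, (L : ℝ) / 2 ≤ E.card ∧ ∀ x ∈ E, Gen x

theorem blk {M0 : ℕ} (hM : 0 < M0) (ρ N : ℕ) {θ : ℝ} (h0 : 0 ≤ θ) (h1 : θ ≤ 1) :
    ∃ M R ν Φ Gen, Blk M0 ρ N θ M R ν Φ Gen := by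
  classical
  obtain ⟨B, hB⟩ : ∃ B, B = M0 + 4 * N * (2 * ρ + 1) + 1 := ⟨_, rfl⟩
  let p : Fin N → ℕ := fun i => Nat.nth Nat.Prime (B + i)
  have pp : ∀ i, (p i).Prime := fun i => Nat.prime_nth_prime _
  have pB : ∀ i, B ≤ p i := fun i =>
    le_self_add.trans (Nat.le_nth fun h => absurd h Nat.infinite_setOfPred_prime)
  have pi : Function.Injective p := fun i j h => Fin.ext (by
    have := Nat.nth_injective Nat.infinite_setOfPred_prime h; omega)
  have p0 : ∀ i, (0 : ℝ) < p i := fun i => by exact_mod_cast (pp i).pos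
  let h : Fin N → ℕ := fun i => M0 * ∏ j ∈ univ.erase i, p j
  have hd : ∀ i j, j ≠ i → p j ∣ h i := fun i j hj =>
    (dvd_prod_of_mem p (by simp [hj])).mul_left _
  have hn : ∀ i, ¬ p i ∣ h i := by
    intro i hi
    rcases (pp i).dvd_mul.1 hi with h | h
    · have := Nat.le_of_dvd hM h; have := pB i; omega
    · obtain ⟨j, hj, hj'⟩ := ((pp i).prime.dvd_finsetProd_iff _).1 h
      exact (mem_erase.1 hj).1 (pi ((Nat.prime_dvd_prime_iff_eq (pp i) (pp j)).1 hj')).symm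
  let f : Fin N → ℝ → ℤ → ℝ := fun i s x => (1 - s) / p i + s * if (p i : ℤ) ∣ x then 1 else 0
  let w : Fin N → ℕ → ℝ := fun i t => (1 - θ) / p i + θ * if t = 0 then 1 else 0
  let Ω := Fintype.piFinset fun i => range (p i)
  let pos : (Fin N → ℕ) → ℤ := fun ω => ∑ i, (ω i : ℤ) * h i
  let R : ℕ := ∑ i, p i * h i
  let ν0 : ℤ → ℝ := fun y => ∑ ω ∈ Ω, if pos ω = y then ∏ i, w i (ω i) else 0
  have w0 : ∀ i t, 0 ≤ w i t := fun i t => by
    have := p0 i; have := sub_nonneg.2 h1; simp only [w]; positivity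
  have pR : ∀ ω ∈ Ω, pos ω ∈ Icc (-(R : ℤ)) R ∧ -pos ω ∈ Icc (-(R : ℤ)) R ∧ (M0 : ℤ) ∣ pos ω := by
    intro ω hω
    have a1 : 0 ≤ pos ω := sum_nonneg fun _ _ => by positivity
    have a2 : pos ω ≤ R := by
      simp only [pos, R]; push_cast
      refine sum_le_sum fun i _ => mul_le_mul_of_nonneg_right ?_ (by positivity)
      exact_mod_cast (mem_range.1 (Fintype.mem_piFinset.1 hω i)).le
    refine ⟨mem_Icc.2 ⟨by omega, a2⟩, mem_Icc.2 ⟨by omega, by omega⟩, dvd_sum fun i _ => ?_⟩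
    exact Dvd.dvd.mul_left (by simp only [h]; push_cast; exact dvd_mul_right _ _) _
  have S0 : ∀ φ : ℤ → ℝ, ∑ y ∈ Icc (-(R : ℤ)) R, (ν0 y + ν0 (-y)) / 2 * φ y =
      (∑ ω ∈ Ω, (∏ i, w i (ω i)) * φ (pos ω) + ∑ ω ∈ Ω, (∏ i, w i (ω i)) * φ (-pos ω)) / 2 := by
    intro φ
    simp only [div_mul_eq_mul_div, add_mul, ← sum_div, sum_add_distrib, ν0, sum_mul, ite_mul,
      zero_mul, ← neg_eq_iff_eq_neg (a := pos _)]
    congr 2 <;> rw [sum_comm] <;> refine sum_congr rfl fun ω hω => ?_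
    · rw [sum_ite_eq, if_pos (pR ω hω).1]
    · rw [sum_ite_eq, if_pos (pR ω hω).2.1]
  have ev : ∀ s x, ∏ i, f i s (-x) = ∏ i, f i s x := fun s x => by simp [f]
  have S1 : ∀ s x, ∑ ω ∈ Ω, (∏ i, w i (ω i)) * ∏ i, f i s (x - pos ω) = ∏ i, f i (θ * s) x := by
    intro s x
    have e : ∀ (ω : Fin N → ℕ) i, f i s (x - pos ω) = f i s (x - ω i * h i) := by
      intro ω i
      have : (p i : ℤ) ∣ ∑ j ∈ univ.erase i, (ω j : ℤ) * h j := dvd_sum fun j hj =>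
        Dvd.dvd.mul_left (by exact_mod_cast hd j i (mem_erase.1 hj).1.symm) _
      simp only [f, pos, ← add_sum_erase _ _ (mem_univ i), ← sub_sub, dvd_sub_left this]
    simp only [e, ← prod_mul_distrib]
    rw [← prod_univ_sum (fun i => range (p i)) fun i t => w i t * f i s (x - t * h i)]
    refine prod_congr rfl fun i _ => ?_
    have a1 := one_res (pp i) (hn i) x
    have a2 : 0 ∈ range (p i) := mem_range.2 (pp i).pos
    have a3 := (p0 i).ne'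
    simp only [w, f, add_mul, mul_add, sum_add_distrib, mul_assoc, ← mul_sum, a1, ite_mul, one_mul,
      zero_mul, sum_ite_eq', if_pos a2, sum_const, card_range, nsmul_eq_mul, Nat.cast_zero, sub_zero]
    field_simp
    ring
  refine ⟨∏ i, p i, R, fun y => (ν0 y + ν0 (-y)) / 2, fun s x => ∏ i, f i s x,
    fun x => ∀ i (y : ℤ), |y| ≤ ρ → ¬ (p i : ℤ) ∣ x - y, prod_pos fun i _ => (pp i).pos,
    fun y => ?_, fun y => by rw [neg_neg, add_comm], fun y hy => ?_, ?_, fun s x y hy => ?_,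
    fun s s0 s1 x => ?_, fun s x => ?_, fun x hx => ?_, fun x hx y hy s => ?_, ?_⟩
  · have : ∀ y, 0 ≤ ν0 y := fun y => sum_nonneg fun ω _ => by
      have := prod_nonneg fun i (_ : i ∈ univ) => w0 i (ω i)
      positivity
    have h1 := this y; have h2 := this (-y); positivity
  · have : ∀ y, ν0 y ≠ 0 → ∃ ω ∈ Ω, pos ω = y := fun y hy => by
      obtain ⟨ω, hω, h⟩ := exists_ne_zero_of_sum_ne_zero hy
      exact ⟨ω, hω, by_contra fun h' => h (if_neg h')⟩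
    by_cases a : ν0 y = 0
    · obtain ⟨ω, hω, e⟩ := this (-y) (by simpa [a] using hy)
      rw [← neg_neg y, ← e]
      exact ⟨(pR ω hω).2.1, (pR ω hω).2.2.neg_right⟩
    · obtain ⟨ω, hω, rfl⟩ := this y a
      exact ⟨(pR ω hω).1, (pR ω hω).2.2⟩
  · have := S0 fun _ => 1
    simp only [mul_one] at this
    rw [this, ← prod_univ_sum (fun i => range (p i)) w, prod_eq_one, add_self_div_two]
    intro i _
    have a2 : 0 ∈ range (p i) := mem_range.2 (pp i).pos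
    have a3 := (p0 i).ne'
    simp only [w, sum_add_distrib, ← mul_sum, sum_ite_eq', if_pos a2, sum_const, card_range,
      nsmul_eq_mul]
    field_simp
    ring
  · refine prod_congr rfl fun i _ => ?_
    have : (p i : ℤ) ∣ y := Dvd.dvd.trans (by exact_mod_cast dvd_prod_of_mem p (mem_univ i)) hy
    simp only [f, dvd_sub_left this]
  · have : ∀ i, 0 ≤ f i s x ∧ f i s x ≤ 1 := by
      intro i
      have a1 := p0 i
      have a2 : (1 - s) / p i ≤ 1 - s :=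
        div_le_self (by linarith) (by exact_mod_cast (pp i).one_le)
      have a3 : 0 ≤ (1 - s) / p i := div_nonneg (by linarith) a1.le
      simp only [f]
      split_ifs <;> constructor <;> linarith
    exact ⟨prod_nonneg fun i _ => (this i).1, prod_le_one (fun i _ => (this i).1) fun i _ => (this i).2⟩
  · rw [S0 fun y => ∏ i, f i s (x - y), S1]
    have := S1 s (-x)
    simp only [ev, ← neg_add', ← sub_neg_eq_add x] at this
    rw [this, add_self_div_two]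
  · push_cast
    refine prod_dvd_of_coprime (fun i _ j _ hij => ?_) fun i _ => ?_
    · exact Nat.isCoprime_iff_coprime.2 ((Nat.coprime_primes (pp i) (pp j)).2 (pi.ne hij))
    · by_contra h'
      exact hx (prod_eq_zero (mem_univ i) (by simp [f, h']))
  · simp only [f, hx _ y hy, if_false, mul_zero, add_zero, prod_div_distrib]
    simp
  · refine ⟨4 * N * (2 * ρ + 1), fun L hL => ⟨(Ico (0 : ℤ) L).filter _, filter_subset _ _, ?_,
      fun x hx => (mem_filter.1 hx).2⟩⟩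
    have a1 := card_filter_add_card_filter_not (s := Ico (0 : ℤ) L)
      fun x => ∀ i (y : ℤ), |y| ≤ ρ → ¬ (p i : ℤ) ∣ x - y
    have a2 : ((Ico (0 : ℤ) L).filter fun x => ¬ ∀ i (y : ℤ), |y| ≤ ρ → ¬ (p i : ℤ) ∣ x - y) ⊆
        (univ ×ˢ Icc (-(ρ : ℤ)) ρ).biUnion fun q : Fin N × ℤ =>
          (Ico (0 : ℤ) (0 + L)).filter fun x => (p q.1 : ℤ) ∣ x - q.2 := by
      intro x hx
      obtain ⟨b1, b2⟩ := mem_filter.1 hx
      push Not at b2
      obtain ⟨i, y, b3, b4⟩ := b2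
      exact mem_biUnion.2 ⟨(i, y), by simpa [abs_le] using b3, mem_filter.2 ⟨by simpa using b1, b4⟩⟩
    have a3 : (((univ ×ˢ Icc (-(ρ : ℤ)) ρ).biUnion fun q : Fin N × ℤ =>
          (Ico (0 : ℤ) (0 + L)).filter fun x => (p q.1 : ℤ) ∣ x - q.2).card : ℝ) ≤
        (N * (2 * ρ + 1) : ℕ) * (L / B + 1) := by
      have c : (univ ×ˢ Icc (-(ρ : ℤ)) ρ : Finset (Fin N × ℤ)).card = N * (2 * ρ + 1) := by
        simp; omega
      rw [← c, ← nsmul_eq_mul]
      refine (Nat.cast_le.2 card_biUnion_le).trans ?_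
      rw [Nat.cast_sum]
      refine sum_le_card_nsmul _ _ _ fun q _ => ?_
      refine (cnt (pp q.1).pos 0 q.2 L).trans ?_
      have : (0 : ℝ) < B := by rw [hB]; positivity
      gcongr
      exact_mod_cast pB q.1
    have a4 : (((Ico (0 : ℤ) L).filter fun x => ¬ ∀ i (y : ℤ), |y| ≤ ρ → ¬ (p i : ℤ) ∣ x - y).card : ℝ)
        ≤ _ := le_trans (by exact_mod_cast card_le_card a2) a3
    have a5 : (((Ico (0 : ℤ) L).filter fun x => ∀ i (y : ℤ), |y| ≤ ρ → ¬ (p i : ℤ) ∣ x - y).card : ℝ) +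
        ((Ico (0 : ℤ) L).filter fun x => ¬ ∀ i (y : ℤ), |y| ≤ ρ → ¬ (p i : ℤ) ∣ x - y).card = L := by
      have : (Ico (0 : ℤ) L).card = L := by simp
      rw [this] at a1
      exact_mod_cast a1
    obtain ⟨K, hK⟩ : ∃ K, K = N * (2 * ρ + 1) := ⟨_, rfl⟩
    rw [← hK] at a4
    have b1 : (4 * K : ℝ) ≤ L := by rw [mul_assoc, ← hK] at hL; exact_mod_cast hL
    have b2 : (4 * K : ℝ) ≤ B := by
      have : 4 * K ≤ B := by rw [hB, mul_assoc, ← hK]; omega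
      exact_mod_cast this
    have b3 : (K : ℝ) * (L / B) ≤ L / 4 := by
      have : (0 : ℝ) < B := by rw [hB]; positivity
      rw [← mul_div_assoc, div_le_div_iff₀ this (by norm_num)]
      nlinarith [(Nat.cast_nonneg L : (0 : ℝ) ≤ L)]
    linarith

end Pool.Agent.H.MP_1fc4c0_an
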