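import Pool.Agent.H.MP_1fc4c0_an.A

namespace Pool.Agent.H.MP_1fc4c0_an
open Finset

noncomputable def c (μ : ℤ → ℝ) (n : ℕ) : ℤ → ℝ :=
  (fun g : ℤ → ℝ => fun m => ∑' i : ℤ, μ i * g (m - i))^[n] fun m => if m = 0 then 1 else 0

noncomputable def D (μ : ℤ → ℝ) (n : ℕ) (φ : ℤ → ℝ) (x : ℤ) : ℝ := ∑' j, c μ n j * φ (x - j)

lemma c_succ (μ : ℤ → ℝ) (n : ℕ) (m : ℤ) : c μ (n + 1) m = ∑' i, μ i * c μ n (m - i) := by
  rw [c, Function.iterate_succ_apply']; rfl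

lemma sm {ι : Type*} {u φ : ι → ℝ} (u0 : ∀ i, 0 ≤ u i) (hu : Summable u) (hφ : ∀ x, |φ x| ≤ 1) :
    Summable fun i => u i * φ i :=
  hu.of_norm_bounded fun i => by
    rw [Real.norm_eq_abs, abs_mul, abs_of_nonneg (u0 i)]
    exact mul_le_of_le_one_right (u0 i) (hφ i)

lemma conv {u v φ : ℤ → ℝ} (u0 : ∀ i, 0 ≤ u i) (hu : Summable u) (v0 : ∀ i, 0 ≤ v i)
    (hv : Summable v) (hφ : ∀ x, |φ x| ≤ 1) :
    HasSum (fun m => (∑' i, u i * v (m - i)) * φ m) (∑' j, v j * ∑' i, u i * φ (i + j)) := by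
  have s1 : Summable fun p : ℤ × ℤ => v p.1 * u p.2 := hv.mul_of_nonneg hu v0 u0
  have s2 : Summable fun p : ℤ × ℤ => v p.1 * u p.2 * φ (p.2 + p.1) :=
    sm (fun p => mul_nonneg (v0 _) (u0 _)) s1 fun p => hφ _
  have s3 := s2.hasSum
  rw [s2.tsum_prod] at s3
  simp only [mul_assoc, tsum_mul_left] at s3
  let e : ℤ × ℤ ≃ ℤ × ℤ := ⟨fun p => (p.1 - p.2, p.2), fun p => (p.1 + p.2, p.2),
    fun p => by simp, fun p => by simp⟩
  have s4 := e.hasSum_iff.2 s3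
  refine s4.prod_fiberwise fun m => ?_
  have := (s4.summable.prod_factor m).hasSum
  simp only [Function.comp, e, Equiv.coe_fn_mk, add_sub_cancel] at this ⊢
  rw [← tsum_mul_right]
  have e : ∀ i, u i * v (m - i) * φ m = v (m - i) * (u i * φ m) := fun i => by ring
  simp only [e]
  exact this

section
variable {μ : ℤ → ℝ} (h0 : ∀ k, 0 ≤ μ k) (h1 : HasSum μ 1)
include h0 h1

lemma c_prob (n : ℕ) : (∀ k, 0 ≤ c μ n k) ∧ HasSum (c μ n) 1 := by
  induction n with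
  | zero => exact ⟨fun k => by simp only [c, Function.iterate_zero, id]; positivity,
      hasSum_ite_eq 0 1⟩
  | succ n ih =>
    refine ⟨fun k => by rw [c_succ]; exact tsum_nonneg fun i => mul_nonneg (h0 _) (ih.1 _), ?_⟩
    have := conv (φ := fun _ => 1) h0 h1.summable ih.1 ih.2.summable (by simp)
    simpa only [mul_one, h1.tsum_eq, ih.2.tsum_eq, ← c_succ] using this

lemma D_sum (n : ℕ) {φ : ℤ → ℝ} (hφ : ∀ x, |φ x| ≤ 1) (x : ℤ) :
    Summable fun j => c μ n j * φ (x - j) :=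
  sm (c_prob h0 h1 n).1 (c_prob h0 h1 n).2.summable fun _ => hφ _

lemma D_succ (n : ℕ) {φ : ℤ → ℝ} (hφ : ∀ x, |φ x| ≤ 1) (x : ℤ) :
    D μ (n + 1) φ x = ∑' j, c μ n j * ∑' i, μ i * φ (x - j - i) := by
  have := conv (φ := fun m => φ (x - m)) h0 h1.summable (c_prob h0 h1 n).1
    (c_prob h0 h1 n).2.summable fun _ => hφ _
  simp only [← c_succ] at this
  rw [D, this.tsum_eq]
  simp only [sub_sub, add_comm]

end

def g (N : ℕ) (q θ : ℝ) : ℕ → ℝ → ℝ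
  | 0, s => (1 - s) ^ N
  | n + 1, s => (1 - q) * g N q θ n s + q * g N q θ n (θ * s)

lemma g_ge (N : ℕ) {q θ : ℝ} (q0 : 0 ≤ q) (q1 : q ≤ 1) (t0 : 0 ≤ θ) (t1 : θ ≤ 1) (n : ℕ) :
    ∀ s, 0 ≤ s → s ≤ 1 → 1 - N * s * (1 - q * (1 - θ)) ^ n ≤ g N q θ n s := by
  induction n with
  | zero => intro s s0 s1; simpa [g, sub_eq_add_neg] using one_add_mul_le_pow (a := -s) (by linarith) N
  | succ n ih =>
    intro s s0 s1
    have a := mul_le_mul_of_nonneg_left (ih s s0 s1) (sub_nonneg.2 q1)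
    have b := mul_le_mul_of_nonneg_left (ih (θ * s) (by positivity) (mul_le_one₀ t1 s0 s1)) q0
    rw [g, pow_succ]
    linarith

lemma g_le (N : ℕ) {q θ : ℝ} (q0 : 0 ≤ q) (q1 : q ≤ 1) (t0 : 0 < θ) (t1 : θ ≤ 1) (n : ℕ) :
    ∀ s, 0 ≤ s → s ≤ 1 → N * s * g N q θ n s ≤ (1 + q * (1 - θ) / θ) ^ n := by
  induction n with
  | zero =>
    intro s s0 s1
    have a := one_add_mul_le_pow (a := s) (by linarith) N
    have b : (1 + s) ^ N * (1 - s) ^ N ≤ 1 := by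
      rw [← mul_pow]; exact pow_le_one₀ (by nlinarith) (by nlinarith)
    have : 0 ≤ (1 - s) ^ N := pow_nonneg (by linarith) _
    rw [g, pow_zero]
    nlinarith
  | succ n ih =>
    intro s s0 s1
    have a := mul_le_mul_of_nonneg_left (ih s s0 s1) (sub_nonneg.2 q1)
    have b := mul_le_mul_of_nonneg_left (ih (θ * s) (by positivity) (mul_le_one₀ t1 s0 s1))
      (div_nonneg q0 t0.le)
    have e1 : q / θ * (N * (θ * s) * g N q θ n (θ * s)) = q * (N * s * g N q θ n (θ * s)) := by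
      field_simp
    have e2 : 1 + q * (1 - θ) / θ = 1 - q + q / θ := by field_simp; ring
    rw [g, pow_succ]
    rw [e1] at b
    nth_rewrite 2 [e2]
    linarith

lemma cut {μ : ℤ → ℝ} (h0 : ∀ k, 0 ≤ μ k) (h1 : HasSum μ 1) {M0 ρ N M R R0 : ℕ} {θ q : ℝ} {ν Φ Gen} {β : ℤ → ℝ}
    (B : Blk M0 ρ N θ M R ν Φ Gen) (t0 : 0 ≤ θ) (t1 : θ ≤ 1)
    (hβ : ∑ y ∈ Icc (-(R0 : ℤ)) R0, β y = 1 - q)
    (hT : ∀ s, 0 ≤ s → s ≤ 1 → ∀ x, ∑' i, μ i * Φ s (x - i) =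
      ∑ y ∈ Icc (-(R0 : ℤ)) R0, β y * Φ s (x - y) + q * Φ (θ * s) x)
    {x : ℤ} (hx : Gen x) (n : ℕ) : ∀ s, 0 ≤ s → s ≤ 1 → ∀ z : ℤ, |z| + n * R0 ≤ ρ →
      D μ n (Φ s) (x - z) = g N q θ n s / M := by
  have hb : ∀ s, 0 ≤ s → s ≤ 1 → ∀ x, |Φ s x| ≤ 1 := fun s s0 s1 x => by
    rw [abs_of_nonneg (B.bd s s0 s1 x).1]; exact (B.bd s s0 s1 x).2
  induction n with
  | zero =>
    intro s s0 s1 z hz
    rw [D, tsum_eq_single 0 fun j hj => by simp [c, hj]]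
    simpa [c, g] using B.gen x hx z (by simpa using hz) s
  | succ n ih =>
    intro s s0 s1 z hz
    have s2 : 0 ≤ θ * s := by positivity
    have s3 := mul_le_one₀ t1 s0 s1
    rw [D_succ h0 h1 n (hb s s0 s1)]
    have e : ∀ j, c μ n j * ∑' i, μ i * Φ s (x - z - j - i) =
        ∑ y ∈ Icc (-(R0 : ℤ)) R0, β y * (c μ n j * Φ s (x - (z + y) - j)) +
          q * (c μ n j * Φ (θ * s) (x - z - j)) := by
      intro j
      rw [hT s s0 s1, mul_add, mul_sum]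
      congr 1
      · refine sum_congr rfl fun y _ => ?_
        rw [show x - z - j - y = x - (z + y) - j by ring]; ring
      · ring
    simp only [e]
    have a1 : ∀ y, Summable fun j => β y * (c μ n j * Φ s (x - (z + y) - j)) := fun y =>
      (D_sum h0 h1 n (hb s s0 s1) _).mul_left _
    rw [Summable.tsum_add (summable_sum fun y _ => a1 y) ((D_sum h0 h1 n (hb _ s2 s3) _).mul_left _),
      Summable.tsum_finsetSum fun y _ => a1 y]
    simp only [tsum_mul_left]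
    push_cast at hz
    have a2 := ih _ s2 s3 z (by nlinarith)
    have a3 : ∀ y ∈ Icc (-(R0 : ℤ)) R0, β y * ∑' j, c μ n j * Φ s (x - (z + y) - j) =
        β y * (g N q θ n s / M) := fun y hy => by
      have := abs_add_le z y
      have := abs_le.2 (mem_Icc.1 hy)
      rw [← ih s s0 s1 (z + y) (by linarith)]; rfl
    rw [D] at a2
    rw [sum_congr rfl a3, a2, ← sum_mul, hβ, g]
    ring

end Pool.Agent.H.MP_1fc4c0_an
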