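import Pool.Agent.H.MP_1fc4c0_an.B

namespace Pool.Agent.H.MP_1fc4c0_an
open Finset

theorem seq (b N : ℕ → ℕ) (θ : ℕ → ℝ) (t0 : ∀ j, 0 ≤ θ j) (t1 : ∀ j, θ j ≤ 1) :
    ∃ (M0 R0 M R : ℕ → ℕ) (ν : ℕ → ℤ → ℝ) (Φ : ℕ → ℝ → ℤ → ℝ) (Gen : ℕ → ℤ → Prop),
      (∀ j, Blk (M0 j) (b j * R0 j) (N j) (θ j) (M j) (R j) (ν j) (Φ j) (Gen j)) ∧
      (∀ j, 1 ≤ R0 j) ∧ ∀ k j, k < j → R k ≤ R0 j ∧ M k ∣ M0 j := by
  have : ∀ (p : ℕ × ℕ) (j : ℕ), ∃ M R ν Φ Gen, 0 < p.1 →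
      Blk p.1 (b j * p.2) (N j) (θ j) M R ν Φ Gen := by
    intro p j
    by_cases h : 0 < p.1
    · obtain ⟨M, R, ν, Φ, Gen, h⟩ := blk h (b j * p.2) (N j) (t0 j) (t1 j)
      exact ⟨M, R, ν, Φ, Gen, fun _ => h⟩
    · exact ⟨0, 0, 0, 0, fun _ => True, fun h' => absurd h' h⟩
  choose M R ν Φ Gen H using this
  let st : ℕ → ℕ × ℕ := fun n => Nat.rec (1, 1) (fun j p => (p.1 * M p j, p.2 + R p j)) n
  have e : ∀ j, st (j + 1) = ((st j).1 * M (st j) j, (st j).2 + R (st j) j) := fun j => rfl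
  have p1 : ∀ j, 0 < (st j).1 ∧ 1 ≤ (st j).2 := by
    intro j
    induction j with
    | zero => exact ⟨one_pos, le_rfl⟩
    | succ j ih => rw [e]; exact ⟨mul_pos ih.1 (H _ j ih.1).Mpos, ih.2.trans le_self_add⟩
  refine ⟨fun j => (st j).1, fun j => (st j).2, fun j => M (st j) j, fun j => R (st j) j,
    fun j => ν (st j) j, fun j => Φ (st j) j, fun j => Gen (st j) j, fun j => H _ j (p1 j).1,
    fun j => (p1 j).2, fun k j hkj => ?_⟩
  induction j, hkj using Nat.le_induction with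
  | base => simp only [e]; exact ⟨le_add_self, dvd_mul_left _ _⟩
  | succ j _ ih => simp only [e]; exact ⟨ih.1.trans le_self_add, ih.2.mul_right _⟩

noncomputable def base (y : ℤ) : ℝ := if y = 0 then 1 / 2 else if |y| = 1 then 1 / 8 else 0

noncomputable def qq (j : ℕ) : ℝ := 1 / 4 / 2 / 2 ^ j

lemma qq_sum : HasSum qq (1 / 4) := hasSum_geometric_two' _

lemma qq_pos (j : ℕ) : 0 < qq j := by unfold qq; positivity

lemma base_nn (y : ℤ) : 0 ≤ base y := by unfold base; positivity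

lemma base_supp {R : ℕ} (hR : 1 ≤ R) (y : ℤ) (hy : y ∉ Icc (-(R : ℤ)) R) : base y = 0 := by
  rw [mem_Icc, ← abs_le, not_le] at hy
  unfold base
  rw [if_neg, if_neg]
  · omega
  · rintro rfl; simp at hy; omega

theorem mix {M0 R0 M R ρ N : ℕ → ℕ} {θ : ℕ → ℝ} {ν : ℕ → ℤ → ℝ} {Φ : ℕ → ℝ → ℤ → ℝ}
    {Gen : ℕ → ℤ → Prop}
    (B : ∀ j, Blk (M0 j) (ρ j) (N j) (θ j) (M j) (R j) (ν j) (Φ j) (Gen j))
    (hR : ∀ j, 1 ≤ R0 j) (hk : ∀ k j, k < j → R k ≤ R0 j ∧ M k ∣ M0 j) :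
    ∃ μ : ℤ → ℝ, (∀ k, 0 ≤ μ k) ∧ HasSum μ 1 ∧ (∀ k, μ (-k) = μ k) ∧ 1 / 2 ≤ μ 0 ∧ 0 < μ 1 ∧
      ∀ j, ∃ β : ℤ → ℝ, ∀ φ : ℤ → ℝ, (∀ y, |φ y| ≤ 1) → (∀ y, (M j : ℤ) ∣ y → φ y = φ 0) →
        ∑' y, μ y * φ y = ∑ y ∈ Icc (-(R0 j : ℤ)) (R0 j), β y * φ y +
          qq j * ∑ y ∈ Icc (-(R j : ℤ)) (R j), ν j y * φ y := by
  have z : ∀ j y, y ∉ Icc (-(R j : ℤ)) (R j) → ν j y = 0 := fun j y hy =>
    by_contra fun h => hy ((B j).supp y h).1
  have n1 : ∀ j (φ : ℤ → ℝ), HasSum (fun y => qq j * ν j y * φ y)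
      (qq j * ∑ y ∈ Icc (-(R j : ℤ)) (R j), ν j y * φ y) := fun j φ => by
    simp only [mul_assoc]
    exact (hasSum_sum_of_ne_finset_zero fun y hy => by rw [z j y hy, zero_mul]).mul_left _
  have n2 : ∀ j, HasSum (fun y => qq j * ν j y) (qq j) := fun j => by
    simpa [(B j).one] using n1 j fun _ => 1
  have n0 : ∀ j y, 0 ≤ qq j * ν j y := fun j y => mul_nonneg (qq_pos j).le ((B j).nn y)
  have s1 : Summable fun p : ℕ × ℤ => qq p.1 * ν p.1 p.2 := by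
    rw [summable_prod_of_nonneg fun p => n0 _ _]
    exact ⟨fun j => (n2 j).summable, by simpa only [(n2 _).tsum_eq] using qq_sum.summable⟩
  have key : ∀ φ : ℤ → ℝ, (∀ y, |φ y| ≤ 1) →
      (Summable fun j => qq j * ∑ y ∈ Icc (-(R j : ℤ)) (R j), ν j y * φ y) ∧
      HasSum (fun y => (∑' j, qq j * ν j y) * φ y)
        (∑' j, qq j * ∑ y ∈ Icc (-(R j : ℤ)) (R j), ν j y * φ y) := by
    intro φ hφ
    have s2 : Summable fun p : ℕ × ℤ => qq p.1 * ν p.1 p.2 * φ p.2 :=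
      sm (fun p => n0 _ _) s1 fun p => hφ _
    have s3 := s2.hasSum.prod_fiberwise fun j => n1 j φ
    refine ⟨s3.summable, ?_⟩
    rw [s3.tsum_eq]
    have s4 := (Equiv.prodComm ℤ ℕ).hasSum_iff.2 s2.hasSum
    refine s4.prod_fiberwise fun y => ?_
    rw [← tsum_mul_right]
    exact (s4.summable.prod_factor y).hasSum
  have b1 : ∀ (φ : ℤ → ℝ) j, HasSum (fun y => base y * φ y)
      (∑ y ∈ Icc (-(R0 j : ℤ)) (R0 j), base y * φ y) := fun φ j =>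
    hasSum_sum_of_ne_finset_zero fun y hy => by rw [base_supp (hR j) y hy, zero_mul]
  have b2 : HasSum base (3 / 4) := by
    have : HasSum base (∑ y ∈ Icc (-((1 : ℕ) : ℤ)) (1 : ℕ), base y) :=
      hasSum_sum_of_ne_finset_zero fun y hy => base_supp le_rfl y hy
    have e : Icc (-((1 : ℕ) : ℤ)) (1 : ℕ) = {-1, 0, 1} := rfl
    rw [e] at this
    convert this using 1
    simp [base]; norm_num
  have t0 : ∀ y, 0 ≤ ∑' j, qq j * ν j y := fun y => tsum_nonneg fun j => n0 j y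
  refine ⟨fun y => base y + ∑' j, qq j * ν j y, fun y => add_nonneg (base_nn y) (t0 y), ?_,
    fun y => by simp [base, (B _).sym], ?_, ?_, fun j => ?_⟩
  · have := b2.add (key (fun _ => 1) (by simp)).2
    simp only [mul_one, (B _).one, qq_sum.tsum_eq] at this
    convert this using 1; norm_num
  · have := t0 0; simp only [base, if_true]; linarith
  · have := t0 1; simp [base]; linarith
  · refine ⟨fun y => base y + ∑ k ∈ range j, qq k * ν k y +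
      if y = 0 then ∑' k, qq (k + (j + 1)) else 0, fun φ hφ hp => ?_⟩
    obtain ⟨k1, k2⟩ := key φ hφ
    have h0 : (0 : ℤ) ∈ Icc (-(R0 j : ℤ)) (R0 j) := by simp
    simp only [add_mul, sum_add_distrib, ite_mul, zero_mul, sum_ite_eq', if_pos h0]
    rw [((b1 φ j).add k2).tsum_eq, ← k1.sum_add_tsum_nat_add (j + 1), sum_range_succ]
    have a1 : ∀ k, ∑ y ∈ Icc (-(R (k + (j + 1)) : ℤ)) (R (k + (j + 1))), ν (k + (j + 1)) y * φ y =
        φ 0 := by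
      intro k
      rw [← one_mul (φ 0), ← (B (k + (j + 1))).one, sum_mul]
      refine sum_congr rfl fun y _ => ?_
      by_cases h : ν (k + (j + 1)) y = 0
      · simp [h]
      · rw [hp y (Dvd.dvd.trans (by exact_mod_cast (hk j _ (by omega)).2) ((B _).supp y h).2)]
    have a2 : ∑ k ∈ range j, qq k * ∑ y ∈ Icc (-(R k : ℤ)) (R k), ν k y * φ y =
        ∑ y ∈ Icc (-(R0 j : ℤ)) (R0 j), (∑ k ∈ range j, qq k * ν k y) * φ y := by
      simp only [sum_mul, mul_assoc]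
      rw [sum_comm]
      refine sum_congr rfl fun k hkj => ?_
      have := (hk k j (mem_range.1 hkj)).1
      have hs : Icc (-(R k : ℤ)) (R k) ⊆ Icc (-(R0 j : ℤ)) (R0 j) :=
        Icc_subset_Icc (by omega) (by omega)
      rw [← mul_sum, sum_subset hs fun y _ hy => by rw [z k y hy, zero_mul]]
    simp only [a1, a2, tsum_mul_right]
    ring

end Pool.Agent.H.MP_1fc4c0_an
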