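import Pool.Agent.H.MP_1fc4c0_an.C

namespace Pool.Agent.H.MP_1fc4c0_an
open Finset

lemma nums (j : ℕ) : ∃ (a b N : ℕ) (θ : ℝ), 0 < θ ∧ θ ≤ 1 ∧ 0 < a ∧ a ≤ b ∧
    ((b : ℝ) - a) * (j + 1) ≤ 2 * a ∧ 1 / 2 ≤ g N (qq j) θ b 1 - g N (qq j) θ a 1 := by
  obtain ⟨r, hr⟩ : ∃ r : ℕ, r = 19 * (8 * 2 ^ j) * (j + 2) := ⟨_, rfl⟩
  obtain ⟨θ, hθ⟩ : ∃ θ : ℝ, θ = (j + 1) / (j + 2) := ⟨_, rfl⟩
  obtain ⟨T, hT⟩ : ∃ T : ℝ, T = Real.exp (19 * (j + 2)) := ⟨_, rfl⟩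
  have T1 : 1 ≤ T := hT ▸ Real.one_le_exp (by positivity)
  have t0 : 0 < θ := by rw [hθ]; positivity
  have t1 : θ ≤ 1 := by rw [hθ, div_le_one (by positivity)]; linarith
  have q0 := qq_pos j
  have q1 : qq j ≤ 1 := (le_hasSum qq_sum j fun k _ => (qq_pos k).le).trans (by norm_num)
  have e1 : qq j * (1 - θ) * r = 19 := by
    rw [hr, hθ, qq]; push_cast; field_simp; ring
  have N1 := Nat.le_ceil (4 * T)
  have N2 := Nat.ceil_lt_add_one (a := 4 * T) (by positivity)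
  refine ⟨(j + 1) * r, (j + 3) * r, ⌈4 * T⌉₊, θ, t0, t1, by rw [hr]; positivity,
    Nat.mul_le_mul_right _ (by omega), by push_cast; linarith, ?_⟩
  have a1 := g_ge ⌈4 * T⌉₊ q0.le q1 t0.le t1 ((j + 3) * r) 1 zero_le_one le_rfl
  have a2 := g_le ⌈4 * T⌉₊ q0.le q1 t0 t1 ((j + 1) * r) 1 zero_le_one le_rfl
  have x0 : 0 ≤ qq j * (1 - θ) := mul_nonneg q0.le (by linarith)
  have x1 : qq j * (1 - θ) ≤ 1 := mul_le_one₀ q1 (by linarith) (by linarith)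
  have b1 : (1 - qq j * (1 - θ)) ^ ((j + 3) * r) * (T * Real.exp 19) ≤ 1 := by
    have h := pow_le_pow_left₀ (by linarith) (Real.one_sub_le_exp_neg (qq j * (1 - θ))) ((j + 3) * r)
    refine (mul_le_mul_of_nonneg_right h (by positivity)).trans (le_of_eq ?_)
    rw [hT, ← Real.exp_nat_mul, ← Real.exp_add, ← Real.exp_add, Real.exp_eq_one_iff]
    push_cast
    linear_combination (-(j + 3 : ℝ)) * e1
  have b2 : (1 + qq j * (1 - θ) / θ) ^ ((j + 1) * r) ≤ T := by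
    have h := pow_le_pow_left₀ (by positivity)
      ((add_comm _ _).trans_le (Real.add_one_le_exp (qq j * (1 - θ) / θ))) ((j + 1) * r)
    refine h.trans (le_of_eq ?_)
    rw [hT, ← Real.exp_nat_mul]
    congr 1
    push_cast
    have : ((j : ℝ) + 1) / θ = j + 2 := by rw [hθ]; field_simp
    rw [← this, ← e1]
    ring
  have b3 := Real.add_one_le_exp 19
  obtain ⟨P, hP⟩ : ∃ P, P = (1 - qq j * (1 - θ)) ^ ((j + 3) * r) := ⟨_, rfl⟩
  have P0 : 0 ≤ P := hP ▸ pow_nonneg (by linarith) _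
  rw [← hP] at a1 b1
  have c1 : (⌈4 * T⌉₊ : ℝ) * P ≤ 1 / 4 := by
    have : 0 ≤ P * T := by positivity
    nlinarith
  have c2 : g ⌈4 * T⌉₊ (qq j) θ ((j + 1) * r) 1 ≤ 1 / 4 := by
    by_contra h
    push Not at h
    nlinarith
  linarith

theorem core : ∃ μ : ℤ → ℝ, (∀ k, 0 ≤ μ k) ∧ HasSum μ 1 ∧ (∀ k, μ (-k) = μ k) ∧ 1 / 2 ≤ μ 0 ∧
    0 < μ 1 ∧ ∀ j : ℕ, ∃ (a b : ℕ) (f : ℤ → ℝ) (E : Finset ℤ) (δ : ℝ), 0 < a ∧ a ≤ b ∧
      ((b : ℝ) - a) * (j + 1) ≤ 2 * a ∧ 0 < δ ∧ E.Nonempty ∧ (∀ x, |f x| ≤ 1) ∧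
      (Summable fun x => |f x|) ∧ ∑' x, |f x| ≤ 22 * δ * E.card ∧
      ∀ x ∈ E, δ ≤ D μ b f x - D μ a f x := by
  choose a b N θ t0 t1 a0 ab hab hg using nums
  obtain ⟨M0, R0, M, R, ν, Φ, Gen, B, hR, hk⟩ := seq b N θ (fun j => (t0 j).le) t1
  obtain ⟨μ, h0, h1, hs, m0, m1, hβ⟩ := mix B hR hk
  refine ⟨μ, h0, h1, hs, m0, m1, fun j => ?_⟩
  obtain ⟨β, hβ⟩ := hβ j
  have B := B j
  have hb : ∀ s, 0 ≤ s → s ≤ 1 → ∀ x, |Φ j s x| ≤ 1 := fun s s0 s1 x => by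
    rw [abs_of_nonneg (B.bd s s0 s1 x).1]; exact (B.bd s s0 s1 x).2
  have β1 : ∑ y ∈ Icc (-(R0 j : ℤ)) (R0 j), β y = 1 - qq j := by
    have := hβ (fun _ => 1) (by simp) (by simp)
    simp only [mul_one, h1.tsum_eq, B.one] at this
    linarith
  have hc := fun x hx n => cut h0 h1 B (t0 j).le (t1 j) β1 (fun s s0 s1 x => by
    rw [hβ (fun i => Φ j s (x - i)) (fun _ => hb s s0 s1 _) fun y hy => by
      rw [B.per s x y hy, sub_zero], B.step]) (x := x) hx n 1 zero_le_one le_rfl 0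
  have M0' : (0 : ℝ) < M j := by exact_mod_cast B.Mpos
  obtain ⟨cb0, cb1⟩ := c_prob h0 h1 (b j)
  obtain ⟨L0, hL0⟩ := B.many
  obtain ⟨S, hS⟩ : ∃ S : Finset ℤ, 1 - 1 / (8 * M j) < ∑ i ∈ S, c μ (b j) i :=
    (cb1.eventually (lt_mem_nhds (by
      have : (0 : ℝ) < 1 / (8 * M j) := by positivity
      linarith))).exists
  obtain ⟨L, L1, L2, L3⟩ : ∃ L : ℕ, L0 ≤ L ∧ M j ≤ L ∧ ∀ i ∈ S, |i| ≤ L := by
    refine ⟨L0 + M j + S.sup Int.natAbs, by omega, by omega, fun i hi => ?_⟩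
    have := le_sup (f := Int.natAbs) hi
    rw [Int.abs_eq_natAbs]
    omega
  obtain ⟨E, E1, E2, E3⟩ := hL0 L L1
  have L4 : (M j : ℝ) ≤ L := by exact_mod_cast L2
  let f : ℤ → ℝ := fun x => if x ∈ Ico (-(L : ℤ)) (-L + (3 * L : ℕ)) then Φ j 1 x else 0
  have f1 : ∀ x, 0 ≤ f x ∧ f x ≤ Φ j 1 x := fun x => by
    have := (B.bd 1 zero_le_one le_rfl x).1
    simp only [f]; split_ifs <;> simp [this]
  have f2 : ∀ x, |f x| ≤ 1 := fun x => by
    rw [abs_of_nonneg (f1 x).1]; exact (f1 x).2.trans (B.bd 1 zero_le_one le_rfl x).2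
  have f3 : HasSum (fun x => |f x|) (∑ x ∈ (Ico (-(L : ℤ)) (-L + (3 * L : ℕ))).filter
      fun x => (M j : ℤ) ∣ x - 0, |f x|) := by
    refine hasSum_sum_of_ne_finset_zero fun x hx => ?_
    rw [abs_eq_zero]
    by_contra h
    simp only [f, ite_eq_right_iff, Classical.not_imp] at h
    exact hx (mem_filter.2 ⟨h.1, by simpa using B.top x h.2⟩)
  refine ⟨a j, b j, f, E, 3 / (8 * M j), a0 j, ab j, hab j, by positivity,
    card_pos.1 (by exact_mod_cast lt_of_lt_of_le (by linarith : (0 : ℝ) < L / 2) E2), f2,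
    f3.summable, ?_, fun x hx => ?_⟩
  · rw [f3.tsum_eq]
    refine (sum_le_card_nsmul _ _ 1 fun x _ => f2 x).trans ?_
    rw [nsmul_eq_mul, mul_one]
    refine (cnt B.Mpos _ 0 _).trans ?_
    have : (1 : ℝ) ≤ L / M j := (one_le_div M0').2 L4
    have e : (22 : ℝ) * (3 / (8 * M j)) * (L / 2) = 33 / 8 * (L / M j) := by field_simp; ring
    have := mul_le_mul_of_nonneg_left E2 (by positivity : (0 : ℝ) ≤ 22 * (3 / (8 * M j)))
    push_cast
    rw [mul_div_assoc]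
    linarith
  · have g1 := hc x (E3 x hx) (a j) (by
      have := Nat.mul_le_mul_right (R0 j) (ab j)
      simp only [abs_zero, zero_add]; exact_mod_cast this)
    have g2 := hc x (E3 x hx) (b j) (by simp)
    rw [sub_zero] at g1 g2
    have hb1 := hb 1 zero_le_one le_rfl
    have u1 : D μ (a j) f x ≤ D μ (a j) (Φ j 1) x :=
      (D_sum h0 h1 _ f2 x).tsum_le_tsum (fun i => mul_le_mul_of_nonneg_left (f1 _).2
        ((c_prob h0 h1 _).1 i)) (D_sum h0 h1 _ hb1 x)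
    have u2 : D μ (b j) (Φ j 1) x - 1 ≤ D μ (b j) f x - ∑ i ∈ S, c μ (b j) i := by
      have s1 : HasSum (fun i => if i ∈ S then c μ (b j) i else 0) (∑ i ∈ S, c μ (b j) i) := by
        rw [← sum_congr rfl fun i (hi : i ∈ S) => if_pos (t := c μ (b j) i) (e := 0) hi]
        exact hasSum_sum_of_ne_finset_zero fun i hi => if_neg hi
      refine hasSum_le (fun i => ?_) ((D_sum h0 h1 _ hb1 x).hasSum.sub cb1)
        ((D_sum h0 h1 _ f2 x).hasSum.sub s1)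
      split_ifs with hi
      · have := abs_le.1 (L3 i hi)
        have := mem_Ico.1 (E1 hx)
        simp only [f]
        rw [if_pos (mem_Ico.2 ⟨by omega, by omega⟩)]
      · have := mul_le_of_le_one_right (cb0 i) (B.bd 1 zero_le_one le_rfl (x - i)).2
        have := mul_nonneg (cb0 i) (f1 (x - i)).1
        linarith
    have u3 := div_le_div_of_nonneg_right (hg j) M0'.le
    have e : (3 : ℝ) / (8 * M j) = 1 / 2 / M j - 1 / (8 * M j) := by field_simp; ring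
    rw [sub_div] at u3
    linarith

end Pool.Agent.H.MP_1fc4c0_an
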