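import Pool.Agent.H.MP_1fc4c0_an.D

namespace Pool.Agent.H.MP_1fc4c0_an
open Finset

section
variable {μ : ℤ → ℝ} (h0 : ∀ k, 0 ≤ μ k) (h1 : HasSum μ 1)
include h0 h1

lemma hat (hs : ∀ k, μ (-k) = μ k) (m0 : 1 / 2 ≤ μ 0) (m1 : 0 < μ 1) {t : ℝ} (ht : Real.cos t < 1) :
    ∃ r : ℝ, ∑' k : ℤ, (μ k : ℂ) * Complex.exp (((t * (k : ℝ) : ℝ) : ℂ) * Complex.I) = r ∧
      0 ≤ r ∧ r < 1 := by
  have s1 : Summable fun k : ℤ => (μ k : ℂ) * Complex.exp (((t * (k : ℝ) : ℝ) : ℂ) * Complex.I) :=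
    h1.summable.of_norm_bounded fun k => by
      rw [norm_mul, Complex.norm_exp_ofReal_mul_I, mul_one, Complex.norm_real,
        Real.norm_of_nonneg (h0 k)]
  obtain ⟨F, hF⟩ := s1
  have a1 := Complex.hasSum_re hF
  have a2 := Complex.hasSum_im hF
  simp only [Complex.re_ofReal_mul, Complex.im_ofReal_mul, Complex.exp_ofReal_mul_I_re,
    Complex.exp_ofReal_mul_I_im] at a1 a2
  have a3 := (Equiv.neg ℤ).hasSum_iff.2 a2
  simp only [Function.comp_def, Equiv.neg_apply, hs, Int.cast_neg, mul_neg, Real.sin_neg] at a3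
  have a4 := a3.unique a2.neg
  refine ⟨F.re, ?_, ?_, ?_⟩
  · rw [hF.tsum_eq]; apply Complex.ext <;> simp; linarith
  · have := le_hasSum (h1.add a1) 0 fun k _ => by
      have := mul_le_mul_of_nonneg_left (Real.neg_one_le_cos (t * k)) (h0 k); linarith
    simp at this; linarith
  · have := le_hasSum (h1.sub a1) 1 fun k _ => by
      have := mul_le_mul_of_nonneg_left (Real.cos_le_one (t * k)) (h0 k); linarith
    have := mul_pos m1 (sub_pos.2 ht)
    simp at *; linarith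

omit h0 h1 in
lemma tel {a b : ℕ} (ab : a ≤ b) (f : ℤ → ℝ) (x : ℤ) :
    D μ b f x - D μ a f x ≤ ∑ n ∈ Ico a b, |D μ n f x - D μ (n + 1) f x| := by
  rw [← sum_Ico_sub (fun n => D μ n f x) ab]
  exact sum_le_sum fun n _ => by rw [abs_sub_comm]; exact le_abs_self _

lemma dif (n : ℕ) {f : ℤ → ℝ} (hf : ∀ x, |f x| ≤ 1) (x : ℤ) :
    ∑' j, (c μ n j - c μ (n + 1) j) * f (x - j) = D μ n f x - D μ (n + 1) f x := by
  simp only [sub_mul]
  exact (D_sum h0 h1 n hf x).tsum_sub (D_sum h0 h1 _ hf x)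

lemma young (n : ℕ) {f : ℤ → ℝ} (hf : ∀ x, |f x| ≤ 1) (hs : Summable fun x => |f x|)
    (E : Finset ℤ) : ∑ x ∈ E, |D μ n f x - D μ (n + 1) f x| ≤
      (∑' j, |c μ n j - c μ (n + 1) j|) * ∑' x, |f x| := by
  have s1 : Summable fun j => |c μ n j - c μ (n + 1) j| :=
    ((c_prob h0 h1 n).2.summable.sub (c_prob h0 h1 _).2.summable).abs
  have s2 : ∀ x, Summable fun j => |c μ n j - c μ (n + 1) j| * |f (x - j)| := fun x =>
    sm (fun _ => abs_nonneg _) s1 fun j => by rw [abs_abs]; exact hf _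
  have a1 : ∀ x ∈ E, |D μ n f x - D μ (n + 1) f x| ≤
      ∑' j, |c μ n j - c μ (n + 1) j| * |f (x - j)| := fun x _ => by
    rw [← dif h0 h1 n hf]
    simpa only [Real.norm_eq_abs, abs_mul] using norm_tsum_le_tsum_norm
      (f := fun j => (c μ n j - c μ (n + 1) j) * f (x - j))
      (by simpa only [Real.norm_eq_abs, abs_mul] using s2 x)
  refine (sum_le_sum a1).trans ?_
  rw [← Summable.tsum_finsetSum fun x _ => s2 x, ← tsum_mul_right]
  refine (summable_sum fun x _ => s2 x).tsum_le_tsum (fun j => ?_) (s1.mul_right _)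
  rw [← mul_sum]
  refine mul_le_mul_of_nonneg_left ?_ (abs_nonneg _)
  rw [← (Equiv.subRight j).tsum_eq]
  exact ((Equiv.subRight j).summable_iff.2 hs).sum_le_tsum E fun _ _ => abs_nonneg _

end

end Pool.Agent.H.MP_1fc4c0_an
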